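import Pool.Agent.W78.EG.Defs

/-!
Project EG: functions on the trees for general labels (port of Pool.Agent.W32.EX.ZX).
-/

set_option autoImplicit false

namespace Pool.Agent.W191.EG

open Finset Filter
open Pool.Agent.W78.GA (Qd nm prim dt ip lat cellM mE ps DPG ball pball edge dedge ang Ele kap)
open Pool.Agent.W78.EC (Rw Tr SL av rs cd dv psi pts)
open Pool.Agent.W78.EG

variable {t c : ℤ} {f : ℕ}

/-- coordinates with respect to an edge -/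
def co (e : Qd t c × Qd t c) (z : Qd t c) : ℕ × ℕ := ((dt z e.2).toNat, (dt e.1 z).toNat)

theorem comb_re (a b : Qd t c) (x y : ℕ) : ((x : Qd t c) * a + (y : Qd t c) * b).re = x * a.re + y * b.re := by
  simp [QuadraticAlgebra.re_mul, QuadraticAlgebra.re_natCast, QuadraticAlgebra.im_natCast]

theorem comb_im (a b : Qd t c) (x y : ℕ) : ((x : Qd t c) * a + (y : Qd t c) * b).im = x * a.im + y * b.im := by
  simp [QuadraticAlgebra.im_mul, QuadraticAlgebra.re_natCast, QuadraticAlgebra.im_natCast]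

theorem co_comb {e : Qd t c × Qd t c} (he : dt e.1 e.2 = 1) (x : ℕ × ℕ) :
    co e ((x.1 : Qd t c) * e.1 + (x.2 : Qd t c) * e.2) = x := by
  have h1 : dt ((x.1 : Qd t c) * e.1 + (x.2 : Qd t c) * e.2) e.2 = x.1 := by
    unfold dt at he ⊢
    rw [comb_re, comb_im]
    linear_combination (x.1 : ℤ) * he
  have h2 : dt e.1 ((x.1 : Qd t c) * e.1 + (x.2 : Qd t c) * e.2) = x.2 := by
    unfold dt at he ⊢
    rw [comb_re, comb_im]
    linear_combination (x.2 : ℤ) * he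
  unfold co
  rw [h1, h2]
  simp

theorem mem_cone {X : ℝ} {a b z : Qd t c} : z ∈ cone X a b ↔ z ∈ pball t c X ∧ 0 < dt a z ∧ 0 < dt z b := by
  unfold cone
  rw [mem_filter]

theorem co_cast {X : ℝ} {e : Qd t c × Qd t c} {z : Qd t c} (hz : z ∈ cone X e.1 e.2) :
    ((co e z).1 : ℤ) = dt z e.2 ∧ ((co e z).2 : ℤ) = dt e.1 z := by
  rw [mem_cone] at hz
  unfold co
  exact ⟨Int.toNat_of_nonneg hz.2.2.le, Int.toNat_of_nonneg hz.2.1.le⟩

theorem cd_co {X : ℝ} {e : Qd t c × Qd t c} (he : dt e.1 e.2 = 1) {v w : Qd t c} (hv : v ∈ cone X e.1 e.2)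
    (hw : w ∈ cone X e.1 e.2) : cd (co e v) (co e w) = dt v w := by
  unfold cd
  rw [(co_cast hv).1, (co_cast hv).2, (co_cast hw).1, (co_cast hw).2]
  have : dt v w = dt v w * dt e.1 e.2 := by rw [he, mul_one]
  rw [this]
  unfold dt
  ring

theorem re_im_co {X : ℝ} {e : Qd t c × Qd t c} (he : dt e.1 e.2 = 1) {v : Qd t c} (hv : v ∈ cone X e.1 e.2) :
    v.re = (co e v).1 * e.1.re + (co e v).2 * e.2.re ∧
      v.im = (co e v).1 * e.1.im + (co e v).2 * e.2.im := by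
  rw [(co_cast hv).1, (co_cast hv).2]
  unfold dt at he ⊢
  constructor
  · linear_combination (-v.re) * he
  · linear_combination (-v.im) * he

theorem co_inj {X : ℝ} {e : Qd t c × Qd t c} (he : dt e.1 e.2 = 1) {v w : Qd t c} (hv : v ∈ cone X e.1 e.2)
    (hw : w ∈ cone X e.1 e.2) (h : co e v = co e w) : v = w := by
  obtain ⟨a1, a2⟩ := re_im_co he hv
  obtain ⟨b1, b2⟩ := re_im_co he hw
  rw [h] at a1 a2
  exact QuadraticAlgebra.ext (a1.trans b1.symm) (a2.trans b2.symm)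

theorem rs_mod {p : ℕ} (hp : 0 < p) (x : ℤ) : (p : ℤ) ∣ (rs p x : ℤ) - x := by
  unfold rs
  rw [Int.toNat_of_nonneg (Int.emod_nonneg _ (by omega))]
  have := Int.emod_add_mul_ediv x p
  exact ⟨-(x / p), by linarith⟩

theorem rs_lt {p : ℕ} (hp : 0 < p) (x : ℤ) : rs p x < p := by
  unfold rs
  have h1 := Int.emod_lt_of_pos x (show (0 : ℤ) < p by omega)
  have h2 := Int.emod_nonneg x (show (p : ℤ) ≠ 0 by omega)
  omega

/-- divisibility condition for the actual residues -/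
theorem dv_res {X : ℝ} {e : Qd t c × Qd t c} (he : dt e.1 e.2 = 1) {p : ℕ} (hp : 0 < p) (r : ℤ) {v : Qd t c}
    (hv : v ∈ cone X e.1 e.2) : dv p r (res p e) (co e v) ↔ lat p r v := by
  obtain ⟨a1, a2⟩ := re_im_co he hv
  unfold dv lat res
  have h1 := rs_mod hp e.1.re
  have h2 := rs_mod hp e.1.im
  have h3 := rs_mod hp e.2.re
  have h4 := rs_mod hp e.2.im
  simp only
  rw [a1, a2]
  generalize ((co e v).1 : ℤ) = x at *
  generalize ((co e v).2 : ℤ) = y at *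
  have hdiff : (p : ℤ) ∣ (x * ((rs p e.1.re : ℤ) + r * (rs p e.1.im : ℤ)) +
      y * ((rs p e.2.re : ℤ) + r * (rs p e.2.im : ℤ))) -
      (x * e.1.re + y * e.2.re + r * (x * e.1.im + y * e.2.im)) := by
    have e1 : (x * ((rs p e.1.re : ℤ) + r * (rs p e.1.im : ℤ)) +
      y * ((rs p e.2.re : ℤ) + r * (rs p e.2.im : ℤ))) -
      (x * e.1.re + y * e.2.re + r * (x * e.1.im + y * e.2.im)) =
      x * ((rs p e.1.re : ℤ) - e.1.re) + x * r * ((rs p e.1.im : ℤ) - e.1.im) +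
      y * ((rs p e.2.re : ℤ) - e.2.re) + y * r * ((rs p e.2.im : ℤ) - e.2.im) := by ring
    rw [e1]
    exact dvd_add (dvd_add (dvd_add (h1.mul_left _) (h2.mul_left _)) (h3.mul_left _))
      (h4.mul_left _)
  exact (Int.dvd_iff_dvd_of_dvd_sub hdiff)

theorem res_mem {e : Qd t c × Qd t c} (he : dt e.1 e.2 = 1) {p : ℕ} (hp : 0 < p) : res p e ∈ SL p := by
  unfold SL res
  rw [mem_filter]
  refine ⟨?_, ?_⟩
  · simp only [mem_product, mem_range]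
    exact ⟨rs_lt hp _, rs_lt hp _, rs_lt hp _, rs_lt hp _⟩
  · simp only
    obtain ⟨a, ha⟩ := rs_mod hp e.1.re
    obtain ⟨b, hb⟩ := rs_mod hp e.1.im
    obtain ⟨c, hc⟩ := rs_mod hp e.2.re
    obtain ⟨d, hd⟩ := rs_mod hp e.2.im
    have ha' : (rs p e.1.re : ℤ) = e.1.re + p * a := by linarith
    have hb' : (rs p e.1.im : ℤ) = e.1.im + p * b := by linarith
    have hc' : (rs p e.2.re : ℤ) = e.2.re + p * c := by linarith
    have hd' : (rs p e.2.im : ℤ) = e.2.im + p * d := by linarith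
    rw [ha', hb', hc', hd']
    unfold dt at he
    refine ⟨e.1.re * d + a * e.2.im + p * a * d - e.1.im * c - b * e.2.re - p * b * c, ?_⟩
    linear_combination he

/-- second divisibility -/
theorem dv_second {p : ℕ} (hp : p.Prime) {r : ℤ} {y : ℕ × ℕ × ℕ × ℕ} {x x' : ℕ × ℕ}
    (h0 : ¬ p ∣ x.1) (hcd : cd x x' = p) (h : dv p r y x) : dv p r y x' := by
  unfold dv at h ⊢
  unfold cd at hcd
  have h1 : (p : ℤ) ∣ (x.1 : ℤ) * ((x'.1 : ℤ) * (y.1 + r * y.2.1) + x'.2 * (y.2.2.1 + r * y.2.2.2)) := by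
    have e1 : (x.1 : ℤ) * ((x'.1 : ℤ) * (y.1 + r * y.2.1) + x'.2 * (y.2.2.1 + r * y.2.2.2)) =
      x'.1 * (x.1 * (y.1 + r * y.2.1) + x.2 * (y.2.2.1 + r * y.2.2.2)) +
        p * (y.2.2.1 + r * y.2.2.2) := by
      linear_combination ((y.2.2.1 : ℤ) + r * y.2.2.2) * hcd
    rw [e1]
    exact dvd_add (h.mul_left _) (dvd_mul_right _ _)
  rcases (Nat.prime_iff_prime_int.1 hp).dvd_or_dvd h1 with h2 | h2
  · exact absurd (Int.natCast_dvd_natCast.1 h2) h0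
  · exact h2

theorem PQ_mem {χ : DirichletCharacter ℂ f} {Q p : ℕ} (h : p ∈ PQ χ Q) : Q < p ∧ p ≤ 2 * Q ∧ p.Prime ∧ χ (p : ZMod f) = 1 := by
  unfold PQ at h
  rw [mem_filter, mem_Ioc] at h
  exact ⟨h.1.1, h.1.2, h.2.1, h.2.2⟩

/-- coordinates of the vectors of the cone over a good edge -/
theorem co_bounds (h11 : S_DTB t c f) {K : ℕ} {κ : ℝ} {Q : ℕ} {X : ℝ} (hK : 1 ≤ K) (hκ : 0 < κ)
    (hQ : 1 ≤ Q) (hX : f * (K * Q : ℝ) ≤ X) {e : Qd t c × Qd t c} (he : e ∈ good t c K κ Q X) {v : Qd t c}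
    (hv : v ∈ cone X e.1 e.2) : 1 ≤ (co e v).1 ∧ 1 ≤ (co e v).2 ∧
      ((co e v).1 : ℝ) ^ 2 ≤ K * Q / κ ∧ ((co e v).2 : ℝ) ^ 2 ≤ K * Q / κ := by
  obtain ⟨x, y, hx, hy, hx2, hy2, hvxy⟩ := (h11 K κ Q X hK hκ hQ hX e he).2 v hv
  have hdt : dt e.1 e.2 = 1 := by
    unfold good at he
    rw [mem_filter] at he
    have he1 := he.1
    unfold edge at he1
    rw [mem_filter] at he1
    exact he1.2.1
  have h1 : co e v = (x, y) := by
    rw [hvxy]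
    exact co_comb hdt (x, y)
  rw [h1]
  exact ⟨hx, hy, hx2, hy2⟩

theorem good_edge {K : ℕ} {κ : ℝ} {Q : ℕ} {X : ℝ} {e : Qd t c × Qd t c} (he : e ∈ good t c K κ Q X) :
    e ∈ edge t c (X / (K * Q)) ∧ dt e.1 e.2 = 1 := by
  unfold good at he
  rw [mem_filter] at he
  have he1 := he.1
  refine ⟨he1, ?_⟩
  unfold edge at he1
  rw [mem_filter] at he1
  exact he1.2.1

/-- if `Q > K/κ`, the coordinates are less than `p` -/
theorem co_lt {χ : DirichletCharacter ℂ f} (h11 : S_DTB t c f) {K : ℕ} {κ : ℝ} {Q : ℕ} {X : ℝ} (hK : 1 ≤ K) (hκ : 0 < κ)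
    (hQ : (K : ℝ) / κ < Q) (hX : f * (K * Q : ℝ) ≤ X) {e : Qd t c × Qd t c} (he : e ∈ good t c K κ Q X) {v : Qd t c}
    (hv : v ∈ cone X e.1 e.2) {p : ℕ} (hp : p ∈ PQ χ Q) : ¬ p ∣ (co e v).1 := by
  have hK0 : (0 : ℝ) < K := by exact_mod_cast hK
  have hQ0 : (0 : ℝ) < Q := lt_trans (div_pos hK0 hκ) hQ
  have hQ1 : 1 ≤ Q := by exact_mod_cast hQ0
  obtain ⟨h1, h2, h3, h4⟩ := co_bounds h11 hK hκ hQ1 hX he hv
  intro hd
  have h5 := Nat.le_of_dvd (by omega) hd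
  have h6 : (p : ℝ) ≤ (co e v).1 := by exact_mod_cast h5
  have h7 : (Q : ℝ) < p := by exact_mod_cast (PQ_mem hp).1
  have h8 : (K * Q / κ : ℝ) < Q * Q := by
    have : (K * Q / κ : ℝ) = K / κ * Q := by ring
    rw [this]
    exact mul_lt_mul_of_pos_right hQ hQ0
  nlinarith

open scoped Classical in
/-- the number of terms -/
theorem card_pairs {χ : DirichletCharacter ℂ f} (h11 : S_DTB t c f) {K : ℕ} {κ : ℝ} {Q : ℕ} {X : ℝ} (hK : 1 ≤ K) (hκ : 0 < κ)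
    (hQ : (K : ℝ) / κ < Q) (hX : f * (K * Q : ℝ) ≤ X) {e : Qd t c × Qd t c} (he : e ∈ good t c K κ Q X)
    {B C₀ : ℕ} (hC₀ : (K : ℝ) / κ ≤ C₀)
    (hB : ∀ (Q p : ℕ) (r : ℤ) (y : ℕ × ℕ × ℕ × ℕ) (R : ℕ), p ∈ PQ χ Q →
      R ^ 2 ≤ C₀ * Q → y ∈ SL p →
      (((range (R + 1) ×ˢ range (R + 1)) ×ˢ (range (R + 1) ×ˢ range (R + 1))).filter
        (fun q => cd q.1 q.2 = p ∧ dv p r y q.1 ∧ dv p r y q.2)).card ≤ B) {p : ℕ} (hp : p ∈ PQ χ Q)
    (r : ℤ) {y : ℕ × ℕ × ℕ × ℕ} (hy : y ∈ SL p) :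
    ((cone X e.1 e.2 ×ˢ cone X e.1 e.2).filter (fun q => dt q.1 q.2 = p ∧ dv p r y (co e q.1))).card
      ≤ B := by
  have hK0 : (0 : ℝ) < K := by exact_mod_cast hK
  have hQ0 : (0 : ℝ) < Q := lt_trans (div_pos hK0 hκ) hQ
  have hQ1 : 1 ≤ Q := by exact_mod_cast hQ0
  have hdt := (good_edge he).2
  set R : ℕ := ⌊Real.sqrt (K * Q / κ)⌋₊ with hR
  have hR2 : R ^ 2 ≤ C₀ * Q := by
    have h1 : (R : ℝ) ≤ Real.sqrt (K * Q / κ) := Nat.floor_le (Real.sqrt_nonneg _)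
    have h2 : (R : ℝ) ^ 2 ≤ K * Q / κ := by
      calc (R : ℝ) ^ 2 ≤ Real.sqrt (K * Q / κ) ^ 2 := by
            exact pow_le_pow_left₀ (by positivity) h1 2
        _ = K * Q / κ := Real.sq_sqrt (by positivity)
    have h3 : (K * Q / κ : ℝ) ≤ C₀ * Q := by
      have : (K * Q / κ : ℝ) = K / κ * Q := by ring
      rw [this]
      exact mul_le_mul_of_nonneg_right hC₀ hQ0.le
    have h4 : ((R ^ 2 : ℕ) : ℝ) ≤ ((C₀ * Q : ℕ) : ℝ) := by
      push_cast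
      exact h2.trans h3
    exact_mod_cast h4
  have hle : ∀ x : ℕ, (x : ℝ) ^ 2 ≤ K * Q / κ → x < R + 1 := by
    intro x hx
    have h1 : (x : ℝ) ≤ Real.sqrt (K * Q / κ) := Real.le_sqrt_of_sq_le hx
    exact Nat.lt_succ_of_le (Nat.le_floor h1)
  refine le_trans ?_ (hB Q p r y R hp hR2 hy)
  refine card_le_card_of_injOn (fun q => (co e q.1, co e q.2)) ?_ ?_
  · intro q hq
    rw [mem_coe, mem_filter, mem_product] at hq
    obtain ⟨⟨hq1, hq2⟩, hq3, hq4⟩ := hq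
    obtain ⟨a1, a2, a3, a4⟩ := co_bounds h11 hK hκ hQ1 hX he hq1
    obtain ⟨b1, b2, b3, b4⟩ := co_bounds h11 hK hκ hQ1 hX he hq2
    rw [mem_coe, mem_filter]
    refine ⟨?_, ?_, hq4, ?_⟩
    · simp only [mem_product, mem_range]
      exact ⟨⟨hle _ a3, hle _ a4⟩, hle _ b3, hle _ b4⟩
    · simp only
      rw [cd_co hdt hq1 hq2, hq3]
    · simp only
      refine dv_second (PQ_mem hp).2.2.1 (co_lt h11 hK hκ hQ hX he hq1 hp) ?_ hq4
      rw [cd_co hdt hq1 hq2, hq3]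
  · intro q hq q' hq' hqq
    rw [mem_coe, mem_filter, mem_product] at hq hq'
    simp only [Prod.mk.injEq] at hqq
    exact Prod.ext (co_inj hdt hq.1.1 hq'.1.1 hqq.1) (co_inj hdt hq.1.2 hq'.1.2 hqq.2)

section

variable {A : Type}

/-- the function on trees, before the truncation -/
noncomputable def Y0 (G : A → A → ℝ) (Q p : ℕ) (r : ℤ) (T : Tr A) (y : ℕ × ℕ × ℕ × ℕ) : ℝ :=
  ((p : ℝ) + 1) / (2 * Q) * ((pts T (1, 0) (0, 1)).map (fun q1 =>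
    ((pts T (1, 0) (0, 1)).map (fun q2 => if cd q1.1 q2.1 = p ∧ dv p r y q1.1 then
      G q1.2 q2.2 else 0)).sum)).sum

/-- the double sum over the cone -/
theorem Y0_eq (h6 : S_PTS t c f) (G : A → A → ℝ) (lab : Qd t c → A) {Y X : ℝ} (hY : (f : ℝ) ≤ Y) (hYX : Y ≤ X)
    {e : Qd t c × Qd t c} (he : e ∈ edge t c Y) (Q p : ℕ) (r : ℤ) (y : ℕ × ℕ × ℕ × ℕ) :
    Y0 G Q p r (TT lab X e) y = ((p : ℝ) + 1) / (2 * Q) *
      ∑ z ∈ cone X e.1 e.2, ∑ w ∈ cone X e.1 e.2,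
        if dt z w = p ∧ dv p r y (co e z) then G (lab z) (lab w) else 0 := by
  have hdt : dt e.1 e.2 = 1 := by
    unfold edge at he
    rw [mem_filter] at he
    exact he.2.1
  unfold Y0
  congr 1
  -- the inner sum
  have h1 : ∀ q1 : (ℕ × ℕ) × A, ((pts (TT lab X e) (1, 0) (0, 1)).map (fun q2 =>
      if cd q1.1 q2.1 = p ∧ dv p r y q1.1 then G q1.2 q2.2 else 0)).sum =
      ∑ w ∈ cone X e.1 e.2, if cd q1.1 (co e w) = p ∧ dv p r y q1.1 then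
        G q1.2 (lab w) else 0 := by
    intro q1
    refine h6 A lab Y X e (fun x l => if cd q1.1 x = p ∧ dv p r y q1.1 then
      G q1.2 l else 0) _ hY hYX he ?_
    intro x
    rw [co_comb hdt]
  have h2 := h6 A lab Y X e (fun x l => ∑ w ∈ cone X e.1 e.2,
    if cd x (co e w) = p ∧ dv p r y x then G l (lab w) else 0)
    (fun z => ∑ w ∈ cone X e.1 e.2,
      if cd (co e z) (co e w) = p ∧ dv p r y (co e z) then G (lab z) (lab w) else 0) hY hYX he (by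
      intro x
      rw [co_comb hdt])
  simp only [h1]
  rw [h2]
  refine sum_congr rfl fun z hz => sum_congr rfl fun w hw => ?_
  rw [cd_co hdt hz hw]

/-- bound of the tree functions -/
theorem Y0_bound {χ : DirichletCharacter ℂ f} (h6 : S_PTS t c f) (h11 : S_DTB t c f) {G : A → A → ℝ} (hG : ∀ a b, |G a b| ≤ 1)
    (lab : Qd t c → A) {K : ℕ} {κ : ℝ} {Q : ℕ} {X : ℝ} (hK : 1 ≤ K)
    (hκ : 0 < κ) (hQ : (K : ℝ) / κ < Q) (hX : f * (K * Q : ℝ) ≤ X) {e : Qd t c × Qd t c}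
    (he : e ∈ good t c K κ Q X) {B C₀ : ℕ} (hC₀ : (K : ℝ) / κ ≤ C₀)
    (hB : ∀ (Q p : ℕ) (r : ℤ) (y : ℕ × ℕ × ℕ × ℕ) (R : ℕ), p ∈ PQ χ Q →
      R ^ 2 ≤ C₀ * Q → y ∈ SL p →
      (((range (R + 1) ×ˢ range (R + 1)) ×ˢ (range (R + 1) ×ˢ range (R + 1))).filter
        (fun q => cd q.1 q.2 = p ∧ dv p r y q.1 ∧ dv p r y q.2)).card ≤ B) {p : ℕ} (hp : p ∈ PQ χ Q)
    (r : ℤ) {y : ℕ × ℕ × ℕ × ℕ} (hy : y ∈ SL p) :
    |Y0 G Q p r (TT lab X e) y| ≤ 2 * B := by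
  have hK0 : (0 : ℝ) < K := by exact_mod_cast hK
  have hK1 : (1 : ℝ) ≤ K := by exact_mod_cast hK
  have hQ0 : (0 : ℝ) < Q := lt_trans (div_pos hK0 hκ) hQ
  have hQ1 : 1 ≤ Q := by exact_mod_cast hQ0
  have hQ1' : (1 : ℝ) ≤ Q := by exact_mod_cast hQ1
  have hKQ : (0 : ℝ) < K * Q := by positivity
  have hY : (f : ℝ) ≤ X / (K * Q) := by
    rw [le_div_iff₀ hKQ]
    exact hX
  have hYX : X / (K * Q) ≤ X := by
    have hX0 : 0 ≤ X := le_trans (by positivity) hX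
    exact div_le_self hX0 (by nlinarith)
  rw [Y0_eq h6 G lab hY hYX (good_edge he).1 Q p r y, abs_mul]
  have h1 : |((p : ℝ) + 1) / (2 * Q)| ≤ 2 := by
    rw [abs_of_nonneg (by positivity), div_le_iff₀ (by positivity)]
    have : (p : ℝ) ≤ 2 * Q := by exact_mod_cast (PQ_mem hp).2.1
    linarith
  have h2 : |∑ z ∈ cone X e.1 e.2, ∑ w ∈ cone X e.1 e.2,
        if dt z w = p ∧ dv p r y (co e z) then G (lab z) (lab w) else 0| ≤ B := by
    rw [← sum_product']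
    refine (abs_sum_le_sum_abs _ _).trans ?_
    have h3 : ∀ q ∈ cone X e.1 e.2 ×ˢ cone X e.1 e.2,
        |if dt q.1 q.2 = p ∧ dv p r y (co e q.1) then G (lab q.1) (lab q.2) else 0| ≤
        if dt q.1 q.2 = p ∧ dv p r y (co e q.1) then 1 else 0 := by
      intro q _
      split_ifs
      · exact hG _ _
      · simp
    refine (sum_le_sum h3).trans ?_
    rw [sum_boole]
    exact_mod_cast card_pairs h11 hK hκ hQ hX he hC₀ hB hp r hy
  calc |((p : ℝ) + 1) / (2 * Q)| * _ ≤ 2 * B := mul_le_mul h1 h2 (abs_nonneg _) (by norm_num)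

/-- average of the tree functions -/
theorem Y0_avg {χ : DirichletCharacter ℂ f} (h6 : S_PTS t c f) (h7 : Pool.Agent.W78.EC.S_AVG) (h11 : S_DTB t c f) (G : A → A → ℝ)
    (lab : Qd t c → A) {K : ℕ} {κ : ℝ} {Q : ℕ} {X : ℝ} (hK : 1 ≤ K)
    (hκ : 0 < κ) (hQ : (K : ℝ) / κ < Q) (hX : f * (K * Q : ℝ) ≤ X) {e : Qd t c × Qd t c}
    (he : e ∈ good t c K κ Q X) {p : ℕ} (hp : p ∈ PQ χ Q) (r : ℤ) :
    (∑ y ∈ SL p, Y0 G Q p r (TT lab X e) y) / ((SL p).card : ℝ) =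
      1 / (2 * Q) * ∑ z ∈ cone X e.1 e.2, ∑ w ∈ cone X e.1 e.2,
        if dt z w = p then G (lab z) (lab w) else 0 := by
  have hK0 : (0 : ℝ) < K := by exact_mod_cast hK
  have hK1 : (1 : ℝ) ≤ K := by exact_mod_cast hK
  have hQ0 : (0 : ℝ) < Q := lt_trans (div_pos hK0 hκ) hQ
  have hQ1 : 1 ≤ Q := by exact_mod_cast hQ0
  have hQ1' : (1 : ℝ) ≤ Q := by exact_mod_cast hQ1
  have hKQ : (0 : ℝ) < K * Q := by positivity
  have hY : (f : ℝ) ≤ X / (K * Q) := by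
    rw [le_div_iff₀ hKQ]
    exact hX
  have hYX : X / (K * Q) ≤ X := by
    have hX0 : 0 ≤ X := le_trans (by positivity) hX
    exact div_le_self hX0 (by nlinarith)
  have hp1 : (0 : ℝ) < (p : ℝ) + 1 := by positivity
  have h1 : ∀ y ∈ SL p, Y0 G Q p r (TT lab X e) y = ((p : ℝ) + 1) / (2 * Q) *
      ∑ z ∈ cone X e.1 e.2, ∑ w ∈ cone X e.1 e.2,
        (if dt z w = p then G (lab z) (lab w) else 0) *
          (if dv p r y (co e z) then 1 else 0) := by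
    intro y _
    rw [Y0_eq h6 G lab hY hYX (good_edge he).1 Q p r y]
    congr 1
    refine sum_congr rfl fun z _ => sum_congr rfl fun w _ => ?_
    by_cases ha : dt z w = p <;> by_cases hb : dv p r y (co e z) <;> simp [ha, hb]
  rw [sum_congr rfl h1, ← mul_sum, mul_div_assoc]
  have h2 : (∑ y ∈ SL p, ∑ z ∈ cone X e.1 e.2, ∑ w ∈ cone X e.1 e.2,
        (if dt z w = p then G (lab z) (lab w) else 0) *
          (if dv p r y (co e z) then (1 : ℝ) else 0)) /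
        ((SL p).card : ℝ) = ∑ z ∈ cone X e.1 e.2, ∑ w ∈ cone X e.1 e.2,
        (if dt z w = p then G (lab z) (lab w) else 0) * (1 / ((p : ℝ) + 1)) := by
    rw [sum_comm, sum_div]
    refine sum_congr rfl fun z hz => ?_
    rw [sum_comm, sum_div]
    refine sum_congr rfl fun w _ => ?_
    rw [← mul_sum, mul_div_assoc]
    congr 1
    exact h7 p r (co e z) (PQ_mem hp).2.2.1 (fun h => co_lt h11 hK hκ hQ hX he hz hp h.1)
  rw [h2]
  simp only [← sum_mul]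
  field_simp

/-- the truncated functions -/
noncomputable def YY (G : A → A → ℝ) (B Q p : ℕ) (r : ℤ) (T : Tr A) (y : ℕ × ℕ × ℕ × ℕ) : ℝ :=
  if |Y0 G Q p r T y| ≤ 2 * B then Y0 G Q p r T y else 0

theorem YY_le (G : A → A → ℝ) (B Q p : ℕ) (r : ℤ) (T : Tr A) (y : ℕ × ℕ × ℕ × ℕ) :
    |YY G B Q p r T y| ≤ 2 * B := by
  unfold YY
  split_ifs with h
  · exact h
  · simp

open scoped Classical in
/-- the value at the residues -/
theorem YY_res {χ : DirichletCharacter ℂ f} (h6 : S_PTS t c f) (h11 : S_DTB t c f) {G : A → A → ℝ} (hG : ∀ a b, |G a b| ≤ 1)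
    (lab : Qd t c → A) {K : ℕ} {κ : ℝ} {Q : ℕ} {X : ℝ} {B C₀ : ℕ} (hK : 1 ≤ K)
    (hκ : 0 < κ) (hQ : (K : ℝ) / κ < Q) (hX : f * (K * Q : ℝ) ≤ X) {e : Qd t c × Qd t c}
    (he : e ∈ good t c K κ Q X) (hC₀ : (K : ℝ) / κ ≤ C₀)
    (hB : ∀ (Q p : ℕ) (r : ℤ) (y : ℕ × ℕ × ℕ × ℕ) (R : ℕ), p ∈ PQ χ Q →
      R ^ 2 ≤ C₀ * Q → y ∈ SL p →
      (((range (R + 1) ×ˢ range (R + 1)) ×ˢ (range (R + 1) ×ˢ range (R + 1))).filter
        (fun q => cd q.1 q.2 = p ∧ dv p r y q.1 ∧ dv p r y q.2)).card ≤ B) {p : ℕ} (hp : p ∈ PQ χ Q)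
    (r : ℤ) : YY G B Q p r (TT lab X e) (res p e) = ((p : ℝ) + 1) / (2 * Q) *
      ∑ z ∈ cone X e.1 e.2, ∑ w ∈ cone X e.1 e.2,
        if dt z w = p ∧ lat p r z then G (lab z) (lab w) else 0 := by
  have hK0 : (0 : ℝ) < K := by exact_mod_cast hK
  have hK1 : (1 : ℝ) ≤ K := by exact_mod_cast hK
  have hQ0 : (0 : ℝ) < Q := lt_trans (div_pos hK0 hκ) hQ
  have hQ1 : 1 ≤ Q := by exact_mod_cast hQ0
  have hQ1' : (1 : ℝ) ≤ Q := by exact_mod_cast hQ1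
  have hKQ : (0 : ℝ) < K * Q := by positivity
  have hY : (f : ℝ) ≤ X / (K * Q) := by
    rw [le_div_iff₀ hKQ]
    exact hX
  have hYX : X / (K * Q) ≤ X := by
    have hX0 : 0 ≤ X := le_trans (by positivity) hX
    exact div_le_self hX0 (by nlinarith)
  have hdt := (good_edge he).2
  have hp0 := (PQ_mem hp).2.2.1.pos
  have hbd := Y0_bound h6 h11 hG lab hK hκ hQ hX he hC₀
    (by
      intro Q' p' r' y' R' h1 h2 h3
      exact hB Q' p' r' y' R' h1 h2 h3) hp r (res_mem hdt hp0)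
  unfold YY
  rw [if_pos hbd, Y0_eq h6 G lab hY hYX (good_edge he).1 Q p r (res p e)]
  congr 1
  refine sum_congr rfl fun z hz => sum_congr rfl fun w _ => ?_
  refine if_congr ?_ rfl rfl
  rw [dv_res hdt hp0 r hz]

/-- the average -/
theorem YY_av {χ : DirichletCharacter ℂ f} (h6 : S_PTS t c f) (h7 : Pool.Agent.W78.EC.S_AVG) (h11 : S_DTB t c f) {G : A → A → ℝ} (hG : ∀ a b, |G a b| ≤ 1)
    (lab : Qd t c → A) {K : ℕ} {κ : ℝ} {Q : ℕ} {X : ℝ} {B C₀ : ℕ} (hK : 1 ≤ K)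
    (hκ : 0 < κ) (hQ : (K : ℝ) / κ < Q) (hX : f * (K * Q : ℝ) ≤ X) {e : Qd t c × Qd t c}
    (he : e ∈ good t c K κ Q X) (hC₀ : (K : ℝ) / κ ≤ C₀)
    (hB : ∀ (Q p : ℕ) (r : ℤ) (y : ℕ × ℕ × ℕ × ℕ) (R : ℕ), p ∈ PQ χ Q →
      R ^ 2 ≤ C₀ * Q → y ∈ SL p →
      (((range (R + 1) ×ˢ range (R + 1)) ×ˢ (range (R + 1) ×ˢ range (R + 1))).filter
        (fun q => cd q.1 q.2 = p ∧ dv p r y q.1 ∧ dv p r y q.2)).card ≤ B) {p : ℕ} (hp : p ∈ PQ χ Q)
    (r : ℤ) : av p (YY G B Q p r) (TT lab X e) = 1 / (2 * Q) *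
      ∑ z ∈ cone X e.1 e.2, ∑ w ∈ cone X e.1 e.2,
        if dt z w = p then G (lab z) (lab w) else 0 := by
  unfold av
  rw [← Y0_avg h6 h7 h11 G lab hK hκ hQ hX he hp r]
  congr 1
  refine sum_congr rfl fun y hy => ?_
  unfold YY
  rw [if_pos (Y0_bound h6 h11 hG lab hK hκ hQ hX he hC₀ hB hp r hy)]

end

theorem cplx {ι : Type} (a b k : ℝ) (s u : Finset ι) (F : ι → ι → ℂ)
    (h1 : a = k * ∑ z ∈ s, ∑ w ∈ u, (F z w).re)
    (h2 : b = k * ∑ z ∈ s, ∑ w ∈ u, (F z w).im) :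
    (a : ℂ) + Complex.I * (b : ℂ) = (k : ℂ) * ∑ z ∈ s, ∑ w ∈ u, F z w := by
  apply Complex.ext
  · rw [h1]
    simp [Complex.re_sum]
  · rw [h2]
    simp [Complex.im_sum]

theorem zx {χ : DirichletCharacter ℂ f} (hF : Fd t c f χ) (h6 : S_PTS t c f)
    (h7 : Pool.Agent.W78.EC.S_AVG) (h8 : S_BDD) (h11 : S_DTB t c f) : S_ZX t c χ := by
  intro K κ hK hκ
  obtain ⟨B, hB0⟩ := h8 ⌈(K : ℝ) / κ⌉₊
  have hB : ∀ (Q p : ℕ) (r : ℤ) (y : ℕ × ℕ × ℕ × ℕ) (R : ℕ), p ∈ PQ χ Q →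
      R ^ 2 ≤ ⌈(K : ℝ) / κ⌉₊ * Q → y ∈ SL p →
      (((range (R + 1) ×ˢ range (R + 1)) ×ˢ (range (R + 1) ×ˢ range (R + 1))).filter
        (fun q => cd q.1 q.2 = p ∧ dv p r y q.1 ∧ dv p r y q.2)).card ≤ B :=
    fun Q p r y R hp h1 h2 => hB0 Q p r y R (PQ_mem hp).2.2.1 (PQ_mem hp).1 (PQ_mem hp).2.1 h1 h2
  have hC₀ : (K : ℝ) / κ ≤ (⌈(K : ℝ) / κ⌉₊ : ℕ) := Nat.le_ceil _
  refine ⟨2 * B, fun Q hQ A d₁ d₂ hd₁ hd₂ r => ?_⟩
  have hG1 : ∀ a b : A, |(d₁ a * d₂ b).re| ≤ 1 := by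
    intro a b
    refine (Complex.abs_re_le_norm _).trans ?_
    rw [norm_mul]
    exact mul_le_one₀ (hd₁ a) (norm_nonneg _) (hd₂ b)
  have hG2 : ∀ a b : A, |(d₁ a * d₂ b).im| ≤ 1 := by
    intro a b
    refine (Complex.abs_im_le_norm _).trans ?_
    rw [norm_mul]
    exact mul_le_one₀ (hd₁ a) (norm_nonneg _) (hd₂ b)
  refine ⟨fun p => YY (fun a b => (d₁ a * d₂ b).re) B Q p (r p),
    fun p => YY (fun a b => (d₁ a * d₂ b).im) B Q p (r p),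
    fun p T y => ⟨YY_le _ _ _ _ _ _ _, YY_le _ _ _ _ _ _ _⟩, ?_⟩
  intro lab X hX e he p hp
  constructor
  · apply cplx
    · refine (YY_res h6 h11 hG1 lab hK hκ hQ hX he hC₀ hB hp (r p)).trans ?_
      refine congrArg _ (sum_congr rfl fun z _ => sum_congr rfl fun w _ => ?_)
      split_ifs <;> simp
    · refine (YY_res h6 h11 hG2 lab hK hκ hQ hX he hC₀ hB hp (r p)).trans ?_
      refine congrArg _ (sum_congr rfl fun z _ => sum_congr rfl fun w _ => ?_)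
      split_ifs <;> simp
  · apply cplx
    · refine (YY_av h6 h7 h11 hG1 lab hK hκ hQ hX he hC₀ hB hp (r p)).trans ?_
      refine congrArg _ (sum_congr rfl fun z _ => sum_congr rfl fun w _ => ?_)
      split_ifs <;> simp
    · refine (YY_av h6 h7 h11 hG2 lab hK hκ hQ hX he hC₀ hB hp (r p)).trans ?_
      refine congrArg _ (sum_congr rfl fun z _ => sum_congr rfl fun w _ => ?_)
      split_ifs <;> simp

end Pool.Agent.W191.EG
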